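import Mathlib
open Filter Topology MeasureTheory
noncomputable section
namespace Pool.Agent.ResolventStab
abbrev X := ZeroAtInftyContinuousMap ℕ ℂ
def g (t : ℝ) (n : ℕ) : ℂ := Complex.exp (-((1 - (n:ℂ) * Complex.I) * (t:ℂ)))
lemma g_norm (t : ℝ) (n : ℕ) : ‖g t n‖ = Real.exp (-t) := by
  unfold g; rw [Complex.norm_exp]; congr 1; simp
def mulF (t : ℝ) (f : X) : X where
  toFun n := g t n * f n
  continuous_toFun := continuous_of_discreteTopology
  zero_at_infty' := by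
    have h := f.zero_at_infty'
    rw [tendsto_zero_iff_norm_tendsto_zero] at h ⊢
    simp only [norm_mul, g_norm]
    simpa using h.const_mul (Real.exp (-t))
lemma norm_le' (f : X) (C : ℝ) (hC : 0 ≤ C) (h : ∀ n, ‖f n‖ ≤ C) : ‖f‖ ≤ C := by
  rw [← ZeroAtInftyContinuousMap.norm_toBCF_eq_norm]
  exact (BoundedContinuousFunction.norm_le hC).2 h
lemma coe_le (f : X) (n : ℕ) : ‖f n‖ ≤ ‖f‖ := by
  rw [← ZeroAtInftyContinuousMap.norm_toBCF_eq_norm]
  exact f.toBCF.norm_coe_le_norm n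
def T (t : ℝ) : X →L[ℂ] X := LinearMap.mkContinuous
  { toFun := mulF t
    map_add' := by intro a b; ext n; simp [mulF, mul_add]
    map_smul' := by intro c a; ext n; simp [mulF]; ring } (Real.exp (-t)) (by
    intro f
    apply norm_le' _ _ (by positivity)
    intro n
    change ‖g t n * f n‖ ≤ _
    rw [norm_mul, g_norm]
    exact mul_le_mul_of_nonneg_left (coe_le f n) (by positivity))
lemma T_apply (t : ℝ) (f : X) (n : ℕ) : T t f n = g t n * f n := rfl
lemma cont (f : X) : ContinuousOn (fun t => T t f) (Set.Ici 0) := by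
  intro t0 ht0
  rw [ContinuousWithinAt, Metric.tendsto_nhds]
  intro ε hε
  have h0 : ∀ᶠ n in atTop, ‖f n‖ < ε/4 := by
    have h := f.zero_at_infty'
    rw [cocompact_eq_cofinite, Nat.cofinite_eq_atTop] at h
    have := Metric.tendsto_nhds.1 h (ε/4) (by positivity)
    simpa using this
  obtain ⟨N, hN⟩ := eventually_atTop.1 h0
  have h1 : ∀ᶠ t in 𝓝[Set.Ici 0] t0, ∀ n ∈ {n | n < N}, dist (g t n * f n) (g t0 n * f n) < ε/2 := by
    rw [Filter.eventually_all_finite (Set.finite_lt_nat N)]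
    intro n _
    have hc : Continuous fun t => g t n * f n := by unfold g; fun_prop
    exact Metric.tendsto_nhds.1 ((hc.tendsto t0).mono_left nhdsWithin_le_nhds) (ε/2) (by positivity)
  filter_upwards [h1, self_mem_nhdsWithin] with t ht htn
  rw [dist_eq_norm]
  refine lt_of_le_of_lt (norm_le' _ (ε/2) (by positivity) ?_) (half_lt_self hε)
  intro n
  change ‖g t n * f n - g t0 n * f n‖ ≤ _
  by_cases hn : n < N
  · have := ht n hn
    rw [dist_eq_norm] at this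
    exact this.le
  · have h2 := hN n (not_lt.1 hn)
    have e1 : Real.exp (-t) ≤ 1 := Real.exp_le_one_iff.2 (by simpa using htn)
    have e2 : Real.exp (-t0) ≤ 1 := Real.exp_le_one_iff.2 (by simpa using ht0)
    have h3 : ‖g t n * f n‖ ≤ ε/4 := by
      rw [norm_mul, g_norm]; nlinarith [norm_nonneg (f n), Real.exp_pos (-t)]
    have h4 : ‖g t0 n * f n‖ ≤ ε/4 := by
      rw [norm_mul, g_norm]; nlinarith [norm_nonneg (f n), Real.exp_pos (-t0)]
    linarith [norm_sub_le (g t n * f n) (g t0 n * f n)]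
lemma T_norm (t : ℝ) : ‖T t‖ ≤ Real.exp (-t) := LinearMap.mkContinuous_norm_le _ (by positivity) _
def ev (n : ℕ) : X →L[ℂ] ℂ := LinearMap.mkContinuous
  { toFun := fun f => f n, map_add' := fun a b => rfl, map_smul' := fun c a => rfl } 1 (by
    intro f; rw [one_mul]; exact coe_le f n)
def R (a s : ℝ) (x : X) : X := ∫ t in Set.Ioi (0:ℝ), Complex.exp (-(((a : ℂ) + (s : ℂ) * Complex.I) * (t : ℂ))) • T t x
lemma integ (a s : ℝ) (ha : 0 < a) (x : X) : IntegrableOn (fun t : ℝ => Complex.exp (-(((a : ℂ) + (s : ℂ) * Complex.I) * (t : ℂ))) • T t x) (Set.Ioi (0:ℝ)) := by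
  have hI : IntegrableOn (fun t : ℝ => Real.exp (-a * t) * ‖x‖) (Set.Ioi (0:ℝ)) := (exp_neg_integrableOn_Ioi 0 ha).mul_const _
  refine Integrable.mono' hI ?_ ?_
  · apply ContinuousOn.aestronglyMeasurable _ measurableSet_Ioi
    exact ContinuousOn.smul (f := fun t : ℝ => Complex.exp (-(((a : ℂ) + (s : ℂ) * Complex.I) * (t : ℂ)))) (g := fun t => T t x) (by fun_prop) ((cont x).mono Set.Ioi_subset_Ici_self)
  · refine (ae_restrict_iff' measurableSet_Ioi).2 (Eventually.of_forall fun t ht => ?_)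
    rw [norm_smul, Complex.norm_exp]
    have h1 : ‖T t x‖ ≤ ‖x‖ := by
      have := (T t).le_opNorm x
      have h2 := T_norm t
      have e1 : Real.exp (-t) ≤ 1 := Real.exp_le_one_iff.2 (by have : (0:ℝ) < t := ht; linarith)
      nlinarith [norm_nonneg x]
    have h3 : (-(((a : ℂ) + (s : ℂ) * Complex.I) * (t : ℂ))).re = -a * t := by simp
    rw [h3]
    exact mul_le_mul_of_nonneg_left h1 (by positivity)
lemma R_eval (a s : ℝ) (ha : 0 < a) (x : X) (n : ℕ) : R a s x n = x n / ((a + 1 : ℂ) + ((s : ℂ) - n) * Complex.I) := by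
  have h := (ev n).integral_comp_comm (integ a s ha x)
  have h' : R a s x n = ∫ t in Set.Ioi (0:ℝ), (ev n) (Complex.exp (-(((a : ℂ) + (s : ℂ) * Complex.I) * (t : ℂ))) • T t x) := h.symm
  rw [h']
  have h2 : ∀ t : ℝ, (ev n) (Complex.exp (-(((a : ℂ) + (s : ℂ) * Complex.I) * (t : ℂ))) • T t x) = Complex.exp (-((a + 1 : ℂ) + ((s : ℂ) - n) * Complex.I) * t) * x n := by
    intro t
    change Complex.exp _ * (g t n * x n) = _
    unfold g
    rw [← mul_assoc, ← Complex.exp_add]; congr 2; ring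
  simp_rw [h2]
  rw [integral_mul_const, integral_exp_mul_complex_Ioi (by simp; linarith)]
  simp only [Complex.ofReal_zero, mul_zero, Complex.exp_zero]
  rw [neg_div_neg_eq, div_mul_eq_mul_div, one_mul]
def x0 : X where
  toFun n := (((Real.sqrt ((n:ℝ)+1))⁻¹ : ℝ) : ℂ)
  continuous_toFun := continuous_of_discreteTopology
  zero_at_infty' := by
    rw [cocompact_eq_cofinite, Nat.cofinite_eq_atTop]
    have h : Tendsto (fun n : ℕ => (Real.sqrt ((n:ℝ)+1))⁻¹) atTop (𝓝 0) :=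
      (Real.tendsto_sqrt_atTop.comp (tendsto_atTop_add_const_right _ _ tendsto_natCast_atTop_atTop)).inv_tendsto_atTop
    have := (Complex.continuous_ofReal.tendsto 0).comp h
    rw [Complex.ofReal_zero] at this
    exact this
lemma lower (a s : ℝ) (ha : 0 < a) (hs : 1 < s) : s⁻¹ ≤ (2 * (a+2)^2) * ‖R a s x0‖ ^ 2 := by
  have h1 := coe_le (R a s x0) ⌊s⌋₊
  rw [R_eval a s ha, norm_div] at h1
  have hn1 : (⌊s⌋₊ : ℝ) ≤ s := Nat.floor_le (by linarith)
  have hn2 : s < (⌊s⌋₊ : ℝ) + 1 := Nat.lt_floor_add_one s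
  have h2 : ‖((a + 1 : ℂ) + ((s : ℂ) - (⌊s⌋₊ : ℂ)) * Complex.I)‖ ≤ a + 2 := by
    refine (Complex.norm_le_abs_re_add_abs_im _).trans ?_
    have e1 : ((a + 1 : ℂ) + ((s : ℂ) - (⌊s⌋₊ : ℂ)) * Complex.I).re = a + 1 := by simp
    have e2 : ((a + 1 : ℂ) + ((s : ℂ) - (⌊s⌋₊ : ℂ)) * Complex.I).im = s - ⌊s⌋₊ := by simp
    rw [e1, e2, abs_of_pos (by linarith), abs_of_nonneg (by linarith)]; linarith
  have h2' : 0 < ‖((a + 1 : ℂ) + ((s : ℂ) - (⌊s⌋₊ : ℂ)) * Complex.I)‖ := by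
    rw [norm_pos_iff]; intro h; have := congrArg Complex.re h; simp at this; linarith
  have h3 : ‖x0 ⌊s⌋₊‖ = (Real.sqrt ((⌊s⌋₊:ℝ)+1))⁻¹ := by
    change ‖(((Real.sqrt ((⌊s⌋₊:ℝ)+1))⁻¹ : ℝ) : ℂ)‖ = _
    rw [Complex.norm_real, Real.norm_of_nonneg (by positivity)]
  have h4 : ‖x0 ⌊s⌋₊‖ ≤ (a+2) * ‖R a s x0‖ := by
    rw [div_le_iff₀ h2'] at h1
    nlinarith [norm_nonneg (R a s x0)]
  have h5 : ‖x0 ⌊s⌋₊‖ ^ 2 = ((⌊s⌋₊:ℝ)+1)⁻¹ := by
    rw [h3, inv_pow, Real.sq_sqrt (by positivity)]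
  have h6 : ‖x0 ⌊s⌋₊‖ ^ 2 ≤ ((a+2) * ‖R a s x0‖)^2 := pow_le_pow_left₀ (norm_nonneg _) h4 2
  have h7 : s⁻¹ ≤ 2 * ((⌊s⌋₊:ℝ)+1)⁻¹ := by
    rw [← div_eq_mul_inv, inv_eq_one_div, div_le_div_iff₀ (by linarith) (by positivity)]; linarith
  rw [h5] at h6
  nlinarith
lemma top (a : ℝ) (ha : 0 < a) : ∫⁻ s : ℝ, ((‖R a s x0‖₊ : ENNReal)) ^ 2 = ⊤ := by
  by_contra hne
  apply not_integrableOn_Ioi_inv (a := (1:ℝ))
  refine ⟨measurable_inv.aestronglyMeasurable, ?_⟩
  have hle : ∫⁻ s in Set.Ioi (1:ℝ), ‖s⁻¹‖ₑ ≤ ∫⁻ s in Set.Ioi (1:ℝ), ENNReal.ofReal (2 * (a+2)^2) * ((‖R a s x0‖₊ : ENNReal)) ^ 2 := by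
    apply setLIntegral_mono' measurableSet_Ioi
    intro s hs
    have h := lower a s ha hs
    have hs0 : (0:ℝ) < s := by have : (1:ℝ) < s := hs; linarith
    rw [Real.enorm_of_nonneg (by positivity)]
    refine (ENNReal.ofReal_le_ofReal h).trans (le_of_eq ?_)
    rw [ENNReal.ofReal_mul (by positivity), ENNReal.ofReal_pow (norm_nonneg _), ofReal_norm_eq_enorm]; rfl
  refine lt_of_le_of_lt hle ?_
  rw [lintegral_const_mul' _ _ ENNReal.ofReal_ne_top]
  exact ENNReal.mul_lt_top ENNReal.ofReal_lt_top (lt_of_le_of_lt (setLIntegral_le_lintegral _ _) (lt_top_iff_ne_top.2 hne))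
theorem main : ¬ (∀ (X : Type) [NormedAddCommGroup X] [NormedSpace ℂ X] [CompleteSpace X]
      (T : ℝ → (X →L[ℂ] X)),
      T 0 = 1 →
      (∀ s t : ℝ, 0 ≤ s → 0 ≤ t → T (s + t) = T s * T t) →
      (∀ x : X, ContinuousOn (fun t : ℝ => T t x) (Set.Ici (0 : ℝ))) →
      (∃ M : ℝ, ∀ t : ℝ, 0 ≤ t → ‖T t‖ ≤ M) →
      ∀ x : X,
        (Tendsto (fun t : ℝ => T t x) atTop (𝓝 0) ↔
          Tendsto
            (fun a : ℝ => ENNReal.ofReal a *
              ∫⁻ s : ℝ,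
                ((‖∫ t in Set.Ioi (0 : ℝ),
                    Complex.exp (-(((a : ℂ) + (s : ℂ) * Complex.I) * (t : ℂ))) • T t x‖₊ : ENNReal)) ^ 2)
            (𝓝[>] (0 : ℝ)) (𝓝 0))) := by
  intro H
  have h := (H X T (by ext f n; rw [T_apply]; simp [g]) (by
    intro s t _ _
    ext f n
    change g (s+t) n * f n = g s n * (g t n * f n)
    rw [← mul_assoc]; congr 1; unfold g; rw [← Complex.exp_add]; congr 1; push_cast; ring) cont
    ⟨1, fun t ht => (T_norm t).trans (Real.exp_le_one_iff.2 (by linarith))⟩ x0).1 (by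
    apply squeeze_zero_norm (a := fun t => Real.exp (-t) * ‖x0‖)
    · intro t
      exact ((T t).le_opNorm x0).trans (mul_le_mul_of_nonneg_right (T_norm t) (norm_nonneg _))
    · simpa using (Real.tendsto_exp_neg_atTop_nhds_zero).mul_const ‖x0‖)
  have h1 := h.eventually (gt_mem_nhds (show (0:ENNReal) < 1 by norm_num))
  obtain ⟨a, ha1, ha2⟩ := (h1.and self_mem_nhdsWithin).exists
  have := top a ha2
  unfold R at this
  rw [this, ENNReal.mul_top (by simpa using ha2)] at ha1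
  simp at ha1
end Pool.Agent.ResolventStab
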